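import Pool.Agent.H32.N6W.Targets
import Pool.Agent.H32.N6W.TargetsL

/-!
# The local lemma over the real numbers, both parities (LOR)
-/

set_option autoImplicit false

open Polynomial NumberField IsDedekindDomain Matrix Pool.Agent.H32.QC Pool.Agent.H34.N6
open Pool.Agent.H13.DEV Pool.Agent.H34.N6V Pool.Agent.H63.WT Pool.Agent.H32.N6W

namespace Pool.Agent.H13.N6W

theorem hpr_mul (hHPM : T_HPM) (F : Type) [Field F] (P1 P2 a b : F[X]) (h1 : P1 ≠ 0)
    (h2 : P2 ≠ 0) : hpr (P1 * P2) a b = hpr P1 a b * hpr P2 a b := by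
  have h := hHPM F (Fin 2) Finset.univ ![P1, P2] a b (fun j _ => by
    fin_cases j
    · exact h1
    · exact h2)
  rw [Fin.prod_univ_two, Fin.prod_univ_two] at h
  exact h

theorem pf_LOR (hHPM : T_HPM) : T_LOR := by
  intro e he P1 P2 D hm1 hm2 hs h7 hc h1 h2 hcz
  by_cases hev : Even P1.natDegree
  · obtain ⟨x, η, hη, h⟩ := he.loc P1 P2 D hm1 hm2 hs h7 hev hc h1 h2 hcz
    refine ⟨x, η, hη, fun t ht => ?_⟩
    obtain ⟨a1, a2, a3, -⟩ := h t ht
    refine ⟨a1, a2, ?_⟩
    rw [a3]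
    unfold qm
    rw [if_pos hev]
  · have hd : P1.natDegree + P2.natDegree = 7 := by
      rw [← hm1.natDegree_mul hm2]
      exact h7
    have hev2 : Even P2.natDegree := by
      rw [Nat.not_even_iff_odd] at hev
      rcases Nat.even_or_odd P2.natDegree with g | g
      · exact g
      · exfalso
        have g2 := hev.add_odd g
        rw [hd] at g2
        exact absurd g2 (by decide)
    have key := he.loc P2 P1 D hm2 hm1
    rw [mul_comm P2 P1] at key
    obtain ⟨x, η, hη, h⟩ := key hs h7 hev2 hc h2 h1 hcz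
    refine ⟨x, η, hη, fun t ht => ?_⟩
    obtain ⟨a1, a2, a3, a4⟩ := h t ht
    refine ⟨a1, a2, ?_⟩
    rw [hpr_mul hHPM ℝ P1 P2 _ _ hm1.ne_zero hm2.ne_zero, a3] at a4
    unfold qm
    rw [if_neg hev, ← a4]
    rcases he.inv.sgn (cls (Phi P2 P1 D)) with g | g
    · rw [g]
      ring
    · rw [g]
      ring

end Pool.Agent.H13.N6W
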